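import Pool.Agent.Q66.RX.Stm

set_option autoImplicit false
set_option linter.unusedSectionVars false

namespace Pool.Agent.Q164.RX

open Topology Filter Set Pool.Agent.Q66.RX

section
variable {X : Type} [CommGroup X] [TopologicalSpace X] [IsTopologicalGroup X]

/-- the evaluation at `x` -/
noncomputable def evc (x : X) : PontryaginDual X →ₜ* Circle where
  toFun χ := χ x
  map_one' := rfl
  map_mul' _ _ := rfl
  continuous_toFun := ContinuousEvalConst.continuous_eval_const (F := X →ₜ* Circle) x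

/-- the evaluation map to the bidual -/
noncomputable def ev (x : X) : PontryaginDual (PontryaginDual X) := evc x

theorem ev_mul (x y : X) : ev (x * y) = ev x * ev y :=
  PontryaginDual.ext fun χ => map_mul χ x y

theorem ev_inv (x : X) : ev x⁻¹ = (ev x)⁻¹ :=
  PontryaginDual.ext fun χ => map_inv χ x

theorem ev_cont [LocallyCompactSpace X] :
    Continuous (ev : X → PontryaginDual (PontryaginDual X)) := by
  have h1 : Continuous fun q : (X →ₜ* Circle) × X => q.1 q.2 :=
    continuous_fst.eval continuous_snd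
  exact ContinuousMonoidHom.continuous_of_continuous_uncurry (evc : X → _)
    (h1.comp continuous_swap)

theorem open_pos {L : Set (PontryaginDual X)} (hL : IsCompact L) :
    IsOpen {Φ : PontryaginDual (PontryaginDual X) | ∀ χ ∈ L, 0 < rr (Φ χ)} := by
  have hO : IsOpen {z : Circle | 0 < rr z} :=
    isOpen_lt continuous_const (Complex.continuous_re.comp continuous_subtype_val)
  exact isOpen_induced (ContinuousMap.isOpen_setOfPred_mapsTo hL hO)

end

theorem t_PKC' : S_PKC := by
  intro X _ _ _ _ _ h2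
  have hset : {Φ : PontryaginDual (PontryaginDual X) | ∃ x : X, ∀ χ, Φ χ = χ x} =
      range (ev : X → PontryaginDual (PontryaginDual X)) := by
    ext Φ
    constructor
    · rintro ⟨x, hx⟩
      exact ⟨x, (PontryaginDual.ext fun χ => hx χ).symm⟩
    · rintro ⟨x, rfl⟩
      exact ⟨x, fun χ => rfl⟩
  rw [hset]
  apply isClosed_of_closure_subset
  intro Ψ hΨ
  obtain ⟨K, hK, hKn⟩ := exists_compact_mem_nhds (1 : X)
  obtain ⟨L, hL, hLK⟩ := h2 K hKn
  have hUo := open_pos hL
  have h1U : (1 : PontryaginDual (PontryaginDual X)) ∈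
      {Φ : PontryaginDual (PontryaginDual X) | ∀ χ ∈ L, 0 < rr (Φ χ)} := by
    intro χ _
    show 0 < rr 1
    simp [rr]
  have hN : {Φ : PontryaginDual (PontryaginDual X) | Ψ * Φ⁻¹ ∈
      {Φ : PontryaginDual (PontryaginDual X) | ∀ χ ∈ L, 0 < rr (Φ χ)}} ∈ 𝓝 Ψ := by
    apply (hUo.preimage (continuous_const.mul continuous_inv)).mem_nhds
    have h10 : Ψ * Ψ⁻¹ ∈ {Φ : PontryaginDual (PontryaginDual X) | ∀ χ ∈ L, 0 < rr (Φ χ)} := by
      rw [mul_inv_cancel]
      exact h1U
    exact h10
  obtain ⟨_, hx1, x0, rfl⟩ := mem_closure_iff_nhds.1 hΨ _ hN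
  have h3 : Ψ * (ev x0)⁻¹ ∈ closure (range (ev : X → PontryaginDual (PontryaginDual X))) := by
    have hc : Continuous fun Φ : PontryaginDual (PontryaginDual X) => Φ * (ev x0)⁻¹ :=
      continuous_id.mul continuous_const
    have h31 := image_closure_subset_closure_image hc (mem_image_of_mem _ hΨ)
    refine closure_mono ?_ h31
    rintro _ ⟨_, ⟨y, rfl⟩, rfl⟩
    exact ⟨y * x0⁻¹, by rw [ev_mul, ev_inv]⟩
  have h4 := hUo.inter_closure ⟨hx1, h3⟩
  have h5 : {Φ : PontryaginDual (PontryaginDual X) | ∀ χ ∈ L, 0 < rr (Φ χ)} ∩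
      range (ev : X → PontryaginDual (PontryaginDual X)) ⊆ ev '' K := by
    rintro _ ⟨hu, y, rfl⟩
    exact ⟨y, hLK y (fun χ hχ => (hu χ hχ).le), rfl⟩
  have h6 : IsClosed ((ev : X → PontryaginDual (PontryaginDual X)) '' K) :=
    (hK.image ev_cont).isClosed
  obtain ⟨z, _, hz⟩ := closure_minimal h5 h6 h4
  exact ⟨z * x0, by rw [ev_mul, hz, inv_mul_cancel_right]⟩

theorem t_PKC (_hL : S_LC) (_hE : S_EQ) : S_PKC := t_PKC'

end Pool.Agent.Q164.RX
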